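import Mathlib
import Pool.Agent.H826R3.SmoothRotSpace

set_option autoImplicit false

/-!
A normed space whose norm is rotund and smooth and which is a union of pairwise disjoint closed
balls of positive radius, hence has a tiling by balls.

The space is the space of finitely supported functions on the reals. Its unit ball is the Hilbert
ball cut by soft constraints, one for each pair of coordinates; a coordinate is attached to each
pair (level, point), and the ball created for a point is pushed in the direction of the coordinate
attached to it.
-/

namespace Pool.Agent.Results.MP_2a41cd_an.RotundSmoothBallTiling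

open Pool.Agent.H826R3.SmoothRotSpace

/-- There is an infinite-dimensional real normed space whose norm is both rotund and (Gateaux)
smooth and which is the union of a family of pairwise disjoint closed balls with positive radii
(so it has a tiling by balls). -/
theorem result : ∃ (X : Type) (_ : NormedAddCommGroup X) (_ : NormedSpace ℝ X),
    ¬ FiniteDimensional ℝ X ∧
    (∀ x y : X, ‖x‖ = 1 → ‖y‖ = 1 → x ≠ y → ‖(1 / 2 : ℝ) • (x + y)‖ < 1) ∧
    (∀ x : X, ‖x‖ = 1 → ∃! f : StrongDual ℝ X, ‖f‖ = 1 ∧ f x = 1) ∧
    ∃ T : Set (X × ℝ), (∀ p ∈ T, 0 < p.2) ∧
      (⋃ p ∈ T, Metric.closedBall p.1 p.2) = Set.univ ∧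
      ∀ p ∈ T, ∀ q ∈ T, p ≠ q →
        Disjoint (Metric.closedBall p.1 p.2) (Metric.closedBall q.1 q.2) :=
  ⟨RX, inferInstance, inferInstance, infinite_dim, rotund, smooth, main⟩

end Pool.Agent.Results.MP_2a41cd_an.RotundSmoothBallTiling
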